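import Pool.Agent.H15.KI.TargetsA

/-!
Row ALG of the board kewi_modules: for local rings with infinite residue field the naive and the
improved Milnor K-groups agree.
-/

namespace Pool.Agent.H33.KI

open Polynomial
open Pool.Agent.H15.KS Pool.Agent.H62.KB Pool.Agent.H15.KI

universe u

noncomputable section

theorem ap_comp {R S T : Type u} [CommRing R] [CommRing S] [CommRing T] (f : R →+* S)
    (g : S →+* T) (n : ℕ) (x : MK R n) :
    ap (mkMap (g.comp f) n) x = ap (mkMap g n) (ap (mkMap f n) x) := by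
  have h : mkMap (g.comp f) n = CategoryTheory.CategoryStruct.comp (mkMap f n) (mkMap g n) :=
    MK_ext fun a => by
      have h1 : ap (CategoryTheory.CategoryStruct.comp (mkMap f n) (mkMap g n)) (sy a) =
        ap (mkMap g n) (ap (mkMap f n) (sy a)) := rfl
      rw [h1, mkMap_sy, mkMap_sy, mkMap_sy]
      rfl
  rw [h]
  rfl

theorem ap_id {R : Type u} [CommRing R] (n : ℕ) (x : MK R n) :
    ap (mkMap (RingHom.id R) n) x = x := by
  have h : mkMap (RingHom.id R) n = CategoryTheory.CategoryStruct.id (MK R n) :=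
    MK_ext fun a => mkMap_sy _ a
  rw [h]
  rfl

theorem ap_zero {A B : AddCommGrpCat.{u}} (g : A ⟶ B) : ap g 0 = 0 := map_zero g.hom

theorem ap_sub {A B : AddCommGrpCat.{u}} (g : A ⟶ B) (x y : A) : ap g (x - y) = ap g x - ap g y :=
  map_sub g.hom x y

/-- germs of sequences at infinity -/
abbrev Gm (B : Type u) : Type u := (Filter.atTop : Filter ℕ).Germ B

/-- the germ of a sequence -/
abbrev gco (B : Type u) [CommRing B] : (ℕ → B) →+* Gm B :=
  Filter.Germ.coeRingHom (R := B) (Filter.atTop : Filter ℕ)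

/-- the constant sequence -/
abbrev cst (B : Type u) [CommRing B] : B →+* (ℕ → B) := RingHom.pi fun _ => RingHom.id B

/-- the map of germs -/
def gmap {B C : Type u} [CommRing B] [CommRing C] (f : B →+* C) : Gm B →+* Gm C where
  toFun := Filter.Germ.map f
  map_one' := congrArg (fun s : ℕ → C => (s : Gm C)) (funext fun _ => map_one f)
  map_zero' := congrArg (fun s : ℕ → C => (s : Gm C)) (funext fun _ => map_zero f)
  map_mul' x y := by
    induction x using Filter.Germ.inductionOn with
    | _ x =>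
      induction y using Filter.Germ.inductionOn with
      | _ y => exact congrArg (fun s : ℕ → C => (s : Gm C)) (funext fun _ => map_mul f _ _)
  map_add' x y := by
    induction x using Filter.Germ.inductionOn with
    | _ x =>
      induction y using Filter.Germ.inductionOn with
      | _ y => exact congrArg (fun s : ℕ → C => (s : Gm C)) (funext fun _ => map_add f _ _)

theorem isUnit_germ {B : Type u} [CommRing B] (s : ℕ → B) (h : ∃ N : ℕ, ∀ i ≥ N, IsUnit (s i)) :
    IsUnit (gco B s) := by
  obtain ⟨N, hN⟩ := h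
  refine IsUnit.of_mul_eq_one (gco B fun i => Ring.inverse (s i)) ?_
  rw [← map_mul, ← map_one (gco B)]
  refine Filter.Germ.coe_eq.2 ?_
  filter_upwards [Filter.eventually_ge_atTop N] with i hi
  exact Ring.mul_inverse_cancel _ (hN i hi)

/-- the values of polynomials along a sequence -/
def pev {B : Type u} [CommRing B] (b : ℕ → B) : B[X] →+* Gm B :=
  (gco B).comp (RingHom.pi fun i => evalRingHom (b i))

/-- the values of the elements of `B(t)` along a sequence -/
def ev {B : Type u} [CommRing B] (b : ℕ → B)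
    (hb : ∀ P ∈ cont B, ∃ N : ℕ, ∀ i ≥ N, IsUnit (P.eval (b i))) : Nag B →+* Gm B :=
  IsLocalization.lift (M := cont B) (S := Localization (cont B)) (g := pev b)
    (fun P => isUnit_germ (fun i => P.1.eval (b i)) (hb P.1 P.2))

theorem ev_pol {B : Type u} [CommRing B] (b : ℕ → B)
    (hb : ∀ P ∈ cont B, ∃ N : ℕ, ∀ i ≥ N, IsUnit (P.eval (b i))) (P : B[X]) :
    ev b hb (pol B P) = gco B (fun i => P.eval (b i)) :=
  IsLocalization.lift_eq (M := cont B) (S := Localization (cont B)) (g := pev b)
    (fun P => isUnit_germ (fun i => P.1.eval (b i)) (hb P.1 P.2)) P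

theorem ev_toNag {B : Type u} [CommRing B] (b : ℕ → B)
    (hb : ∀ P ∈ cont B, ∃ N : ℕ, ∀ i ≥ N, IsUnit (P.eval (b i))) :
    (ev b hb).comp (toNag B) = (gco B).comp (cst B) := by
  refine RingHom.ext fun x => ?_
  refine (ev_pol b hb (C x)).trans ?_
  refine congrArg (gco B) (funext fun i => ?_)
  exact eval_C

theorem pf_ALG : T_PTS.{u} → T_GERM.{u} → T_ALG.{u} := by
  intro hPTS hGERM O _ _ hinf n
  obtain ⟨a, ha1, ha2⟩ := hPTS O hinf
  have hev : ∀ i : ℕ, (Pi.evalRingHom (fun _ : ℕ => O) i).comp (cst O) = RingHom.id O :=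
    fun i => rfl
  refine ⟨?_, ?_⟩
  · intro x hx
    have h1 : ap (mkMap (gco O) n) (ap (mkMap (cst O) n) x) = 0 := by
      rw [← ap_comp, ← ev_toNag a ha1, ap_comp, hx, ap_zero]
    obtain ⟨N, hN⟩ := (hGERM O n).2 _ h1
    have h2 := hN N le_rfl
    rw [← ap_comp, hev N, ap_id] at h2
    exact h2
  · intro b hb
    obtain ⟨w, hw⟩ := (hGERM O n).1 (ap (mkMap (ev a ha1) n) b)
    let E' : Nag (Nag O) →+* Gm (Nag O) := ev (fun i => toNag O (a i)) ha2
    have h1 : E'.comp (toNag (Nag O)) = (gco (Nag O)).comp (cst (Nag O)) := ev_toNag _ _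
    have h2 : E'.comp (nagMap (toNag O)) = (gmap (toNag O)).comp (ev a ha1) := by
      refine nag_ext fun P => ?_
      have e1 : E' (nagMap (toNag O) (pol O P)) = E' (pol (Nag O) (P.map (toNag O))) :=
        congrArg E' (nagMap_pol (toNag O) P)
      have e2 : E' (pol (Nag O) (P.map (toNag O))) =
          gco (Nag O) (fun i => (P.map (toNag O)).eval (toNag O (a i))) := ev_pol _ _ _
      have e3 : gmap (toNag O) (ev a ha1 (pol O P)) =
          gmap (toNag O) (gco O (fun i => P.eval (a i))) :=
        congrArg (gmap (toNag O)) (ev_pol a ha1 P)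
      have e4 : gmap (toNag O) (gco O (fun i => P.eval (a i))) =
          gco (Nag O) (fun i => toNag O (P.eval (a i))) := rfl
      refine (e1.trans e2).trans (Eq.trans ?_ (e3.trans e4).symm)
      refine congrArg (gco (Nag O)) (funext fun i => ?_)
      exact eval_map_apply _ _
    have h3 : (gmap (toNag O)).comp (gco O) =
        (gco (Nag O)).comp ((toNag O).compLeft ℕ) := rfl
    have h4 : ap (mkMap (gco (Nag O)) n) (ap (mkMap (cst (Nag O)) n) b) =
        ap (mkMap (gco (Nag O)) n) (ap (mkMap ((toNag O).compLeft ℕ) n) w) := by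
      rw [← ap_comp, ← h1, ap_comp, hb, ← ap_comp, h2, ap_comp, ← hw, ← ap_comp, h3, ap_comp]
    have h5 : ap (mkMap (gco (Nag O)) n) (ap (mkMap (cst (Nag O)) n) b -
        ap (mkMap ((toNag O).compLeft ℕ) n) w) = 0 := by
      rw [ap_sub, h4, sub_self]
    obtain ⟨N, hN⟩ := (hGERM (Nag O) n).2 _ h5
    have h6 := hN N le_rfl
    refine ⟨ap (mkMap (Pi.evalRingHom (fun _ : ℕ => O) N) n) w, ?_⟩
    rw [ap_sub, sub_eq_zero, ← ap_comp, ← ap_comp] at h6
    have h7 : (Pi.evalRingHom (fun _ : ℕ => (Nag O : Type u)) N).comp (cst (Nag O)) =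
      RingHom.id (Nag O) := rfl
    have h8 : (Pi.evalRingHom (fun _ : ℕ => (Nag O : Type u)) N).comp
        ((toNag O).compLeft ℕ) = (toNag O).comp (Pi.evalRingHom (fun _ : ℕ => O) N) := rfl
    rw [h7, ap_id, h8, ap_comp] at h6
    exact h6.symm

end

end Pool.Agent.H33.KI
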