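import Pool.Agent.H15.KI.TargetsA

/-!
Row GERM of the board kewi_modules: sequences and germs of sequences at infinity.
-/

namespace Pool.Agent.H33.KI

open Polynomial
open Pool.Agent.H15.KS Pool.Agent.H62.KB Pool.Agent.H15.KI
open Pool.Agent.H62.MK (MilnorK sym sym_update_mul sym_steinberg)

universe u

noncomputable section

namespace GERM

theorem ap_eq {R S : Type u} [CommRing R] [CommRing S] (f : R →+* S) (n : ℕ) (x : MilnorK R n) :
    ap (mkMap f n) (x : MK R n) = Pool.Agent.H62.MK.map f n x := by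
  have h : mkMap f n = AddCommGrpCat.ofHom (Pool.Agent.H62.MK.map f n) :=
    MK_ext fun a => (mkMap_sy f a).trans (Pool.Agent.H62.MK.map_sym f a).symm
  rw [h]
  rfl

variable {B : Type u} [CommRing B]

/-- the germ of a sequence -/
abbrev co (B : Type u) [CommRing B] : (ℕ → B) →+* (Filter.atTop : Filter ℕ).Germ B :=
  Filter.Germ.coeRingHom (R := B) (Filter.atTop : Filter ℕ)

/-- the `i`-th entry -/
abbrev en (B : Type u) [CommRing B] (i : ℕ) : (ℕ → B) →+* B :=
  Pi.evalRingHom (fun _ : ℕ => B) i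

theorem unit_lift (u : ((Filter.atTop : Filter ℕ).Germ B)ˣ) :
    ∃ v : (ℕ → B)ˣ, Units.map (co B).toMonoidHom v = u := by
  classical
  obtain ⟨f, hf⟩ : ∃ f : ℕ → B, (f : (Filter.atTop : Filter ℕ).Germ B) = u.val :=
    Quotient.exists_rep u.val
  obtain ⟨g, hg⟩ : ∃ g : ℕ → B, (g : (Filter.atTop : Filter ℕ).Germ B) = u.inv :=
    Quotient.exists_rep u.inv
  have h1 : ((f * g : ℕ → B) : (Filter.atTop : Filter ℕ).Germ B) = ((1 : ℕ → B) : _) := by
    have h2 := u.val_inv
    rw [← hf, ← hg] at h2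
    exact h2
  have h3 : ∀ᶠ i in Filter.atTop, f i * g i = 1 := Filter.Germ.coe_eq.1 h1
  have h4 : ∀ i, (if f i * g i = 1 then f i else 1) * (if f i * g i = 1 then g i else 1) = 1 := by
    intro i
    by_cases h : f i * g i = 1
    · rw [if_pos h, if_pos h, h]
    · rw [if_neg h, if_neg h, one_mul]
  refine ⟨⟨fun i => if f i * g i = 1 then f i else 1, fun i => if f i * g i = 1 then g i else 1,
    funext fun i => h4 i, funext fun i => (mul_comm _ _).trans (h4 i)⟩, ?_⟩
  refine Units.ext ?_
  rw [← hf]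
  refine Filter.Germ.coe_eq.2 ?_
  filter_upwards [h3] with i hi
  exact if_pos hi

/-- the lift of a unit -/
def L (u : ((Filter.atTop : Filter ℕ).Germ B)ˣ) : (ℕ → B)ˣ := (unit_lift u).choose

theorem L_spec (u : ((Filter.atTop : Filter ℕ).Germ B)ˣ) :
    Units.map (co B).toMonoidHom (L u) = u := (unit_lift u).choose_spec

/-- the elements which vanish eventually -/
def Hs (B : Type u) [CommRing B] (n : ℕ) : AddSubgroup (MilnorK (ℕ → B) n) where
  carrier := {w | ∃ N : ℕ, ∀ i ≥ N, Pool.Agent.H62.MK.map (en B i) n w = 0}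
  zero_mem' := ⟨0, fun i _ => map_zero _⟩
  add_mem' := by
    rintro a b ⟨N, hN⟩ ⟨M, hM⟩
    refine ⟨max N M, fun i hi => ?_⟩
    rw [map_add, hN i ((le_max_left _ _).trans hi), hM i ((le_max_right _ _).trans hi), add_zero]
  neg_mem' := by
    rintro a ⟨N, hN⟩
    refine ⟨N, fun i hi => ?_⟩
    rw [map_neg, hN i hi, neg_zero]

theorem same {n : ℕ} (a a' : Fin n → (ℕ → B)ˣ)
    (h : ∀ j, Units.map (co B).toMonoidHom (a j) = Units.map (co B).toMonoidHom (a' j)) :
    (QuotientAddGroup.mk (sym a) : MilnorK (ℕ → B) n ⧸ Hs B n) = QuotientAddGroup.mk (sym a') := by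
  have h1 : ∀ᶠ i in (Filter.atTop : Filter ℕ), ∀ j : Fin n, (a j).val i = (a' j).val i := by
    rw [Filter.eventually_all]
    intro j
    have h2 := congrArg Units.val (h j)
    exact Filter.Germ.coe_eq.1 h2
  obtain ⟨N, hN⟩ := Filter.eventually_atTop.1 h1
  rw [QuotientAddGroup.eq]
  refine ⟨N, fun i hi => ?_⟩
  rw [map_add, map_neg, Pool.Agent.H62.MK.map_sym, Pool.Agent.H62.MK.map_sym]
  have h3 : (fun j => Units.map (en B i).toMonoidHom (a j)) =
      fun j => Units.map (en B i).toMonoidHom (a' j) := by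
    funext j
    exact Units.ext (hN i hi j)
  rw [h3, neg_add_cancel]

/-- the section -/
def F (B : Type u) [CommRing B] (n : ℕ) :
    MilnorK ((Filter.atTop : Filter ℕ).Germ B) n →+ MilnorK (ℕ → B) n ⧸ Hs B n :=
  Pool.Agent.H62.MK.lift
    (fun a => (QuotientAddGroup.mk (sym fun j => L (a j)) : MilnorK (ℕ → B) n ⧸ Hs B n))
    (by
      intro a i x y
      have e1 : (QuotientAddGroup.mk (sym fun j => L (Function.update a i (x * y) j)) :
          MilnorK (ℕ → B) n ⧸ Hs B n) =
          QuotientAddGroup.mk (sym (Function.update (fun j => L (a j)) i (L x * L y))) := by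
        refine same _ _ fun j => ?_
        by_cases hj : j = i
        · subst hj
          rw [Function.update_self, Function.update_self, map_mul, L_spec, L_spec, L_spec]
        · rw [Function.update_of_ne hj, Function.update_of_ne hj]
      have e2 : ∀ z, (QuotientAddGroup.mk (sym fun j => L (Function.update a i z j)) :
          MilnorK (ℕ → B) n ⧸ Hs B n) =
          QuotientAddGroup.mk (sym (Function.update (fun j => L (a j)) i (L z))) := by
        intro z
        refine congrArg (fun b : Fin n → (ℕ → B)ˣ => (QuotientAddGroup.mk (sym b) :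
          MilnorK (ℕ → B) n ⧸ Hs B n)) (funext fun j => ?_)
        by_cases hj : j = i
        · subst hj
          rw [Function.update_self, Function.update_self]
        · rw [Function.update_of_ne hj, Function.update_of_ne hj]
      rw [e1, e2, e2, sym_update_mul]
      rfl)
    (by
      intro a i hi h
      rw [QuotientAddGroup.eq_zero_iff]
      have h1 : ∀ᶠ k in (Filter.atTop : Filter ℕ),
          (L (a ⟨i, by omega⟩)).val k + (L (a ⟨i + 1, hi⟩)).val k = 1 := by
        have e1 := congrArg Units.val (L_spec (a ⟨i, by omega⟩))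
        have e2 := congrArg Units.val (L_spec (a ⟨i + 1, hi⟩))
        rw [← e1, ← e2] at h
        exact Filter.Germ.coe_eq.1 h
      obtain ⟨N, hN⟩ := Filter.eventually_atTop.1 h1
      refine ⟨N, fun k hk => ?_⟩
      rw [Pool.Agent.H62.MK.map_sym]
      exact sym_steinberg _ i hi (hN k hk))

theorem F_map (B : Type u) [CommRing B] (n : ℕ) (w : MilnorK (ℕ → B) n) :
    F B n (Pool.Agent.H62.MK.map (co B) n w) = QuotientAddGroup.mk w := by
  have h : (F B n).comp (Pool.Agent.H62.MK.map (co B) n) = QuotientAddGroup.mk' (Hs B n) := by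
    refine Pool.Agent.H62.MK.hom_ext fun a => ?_
    rw [AddMonoidHom.comp_apply, Pool.Agent.H62.MK.map_sym]
    refine (Pool.Agent.H62.MK.lift_sym _ _ _ _).trans ?_
    exact same _ _ fun j => L_spec _
  exact DFunLike.congr_fun h w

theorem mem_Hs (n : ℕ) (w : MilnorK (ℕ → B) n)
    (h : Pool.Agent.H62.MK.map (co B) n w = 0) : w ∈ Hs B n := by
  have h2 := F_map B n w
  rw [h, map_zero] at h2
  exact (QuotientAddGroup.eq_zero_iff _).1 h2.symm

end GERM

open GERM in
theorem pf_GERM : T_GERM.{u} := by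
  intro B _ n
  refine ⟨?_, ?_⟩
  · intro z
    have h : ∀ z : MilnorK ((Filter.atTop : Filter ℕ).Germ B) n,
        ∃ w : MilnorK (ℕ → B) n, Pool.Agent.H62.MK.map (co B) n w = z := by
      intro z
      refine Pool.Agent.H62.MK.MilnorK.induction
        (p := fun z => ∃ w : MilnorK (ℕ → B) n, Pool.Agent.H62.MK.map (co B) n w = z) z
        ⟨0, map_zero _⟩ ?_ ?_ ?_
      · intro a
        refine ⟨sym fun j => L (a j), ?_⟩
        rw [Pool.Agent.H62.MK.map_sym]
        exact congrArg sym (funext fun j => L_spec _)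
      · rintro x ⟨w, rfl⟩
        exact ⟨-w, map_neg _ _⟩
      · rintro x y ⟨w, rfl⟩ ⟨w', rfl⟩
        exact ⟨w + w', map_add _ _ _⟩
    obtain ⟨w, hw⟩ := h z
    exact ⟨w, (ap_eq (co B) n w).trans hw⟩
  · intro w hw
    have h1 : Pool.Agent.H62.MK.map (co B) n w = 0 := (ap_eq (co B) n w).symm.trans hw
    obtain ⟨N, hN⟩ := mem_Hs n w h1
    exact ⟨N, fun i hi => (ap_eq (en B i) n w).trans (hN i hi)⟩

end

end Pool.Agent.H33.KI
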