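import Pool.Agent.H15.KI.TargetsA

/-!
Row PTS of the board kewi_modules: a sequence which avoids all polynomials with unit content.
-/

namespace Pool.Agent.H33.KI

open Polynomial
open Pool.Agent.H15.KS Pool.Agent.H62.KB Pool.Agent.H15.KI

universe u

noncomputable section

/-- the prime ideal of the polynomials with coefficients in the maximal ideal -/
def pmx (O : Type u) [CommRing O] [IsLocalRing O] : Ideal O[X] :=
  RingHom.ker (mapRingHom (IsLocalRing.residue O))

instance (O : Type u) [CommRing O] [IsLocalRing O] : (pmx O).IsPrime :=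
  RingHom.ker_isPrime _

theorem mem_cont_iff {O : Type u} [CommRing O] [IsLocalRing O] (P : O[X]) :
    P ∈ cont O ↔ P.map (IsLocalRing.residue O) ≠ 0 := by
  have h1 : P ∈ cont O ↔ P.contentIdeal = ⊤ := Iff.rfl
  rw [h1]
  constructor
  · intro h h0
    have h2 : P.contentIdeal ≤ IsLocalRing.maximalIdeal O := by
      rw [contentIdeal_def, Ideal.span_le]
      intro c hc
      rw [Finset.mem_coe, mem_coeffs_iff] at hc
      obtain ⟨i, -, rfl⟩ := hc
      have h3 := congrArg (fun Q => Q.coeff i) h0
      simp only [coeff_map, coeff_zero] at h3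
      exact (IsLocalRing.residue_eq_zero_iff _).1 h3
    rw [h] at h2
    exact (IsLocalRing.maximalIdeal.isMaximal O).ne_top (top_le_iff.1 h2)
  · intro h
    by_contra h2
    apply h
    ext i
    rw [coeff_map, coeff_zero, IsLocalRing.residue_eq_zero_iff]
    exact IsLocalRing.le_maximalIdeal h2 (P.coeff_mem_contentIdeal i)

theorem cont_eq (O : Type u) [CommRing O] [IsLocalRing O] : cont O = (pmx O).primeCompl := by
  ext P
  rw [mem_cont_iff]
  exact Iff.rfl

instance nagLocal (O : Type u) [CommRing O] [IsLocalRing O] : IsLocalRing (Nag O) := by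
  have h : IsLocalization.AtPrime (Localization (cont O)) (pmx O) := by
    show IsLocalization (pmx O).primeCompl (Localization (cont O))
    rw [← cont_eq]
    infer_instance
  exact IsLocalization.AtPrime.isLocalRing (Localization (cont O)) (pmx O)

/-- a polynomial with unit content has unit values along a sequence with different residues -/
theorem avoid {B : Type u} [CommRing B] [IsLocalRing B] (b : ℕ → B)
    (hb : Function.Injective fun i => IsLocalRing.residue B (b i)) (P : B[X]) (hP : P ∈ cont B) :
    ∃ N : ℕ, ∀ i ≥ N, IsUnit (P.eval (b i)) := by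
  classical
  rw [mem_cont_iff] at hP
  have hfin : {i : ℕ | (P.map (IsLocalRing.residue B)).eval (IsLocalRing.residue B (b i)) = 0}.Finite := by
    refine Set.Finite.of_injOn (f := fun i => IsLocalRing.residue B (b i))
      (t := ((P.map (IsLocalRing.residue B)).roots.toFinset : Set (IsLocalRing.ResidueField B)))
      ?_ hb.injOn (Finset.finite_toSet _)
    intro i hi
    rw [Finset.mem_coe, Multiset.mem_toFinset, mem_roots hP]
    exact hi
  obtain ⟨N, hN⟩ := hfin.bddAbove
  refine ⟨N + 1, fun i hi => ?_⟩
  by_contra h
  have h1 : i ∈ {i : ℕ | (P.map (IsLocalRing.residue B)).eval (IsLocalRing.residue B (b i)) = 0} := by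
    rw [Set.mem_ofPred_eq, eval_map_apply, IsLocalRing.residue_eq_zero_iff]
    exact h
  have := hN h1
  omega

theorem pf_PTS : T_PTS.{u} := by
  intro O _ _ hinf
  have hsurj := IsLocalRing.residue_surjective (R := O)
  let s : IsLocalRing.ResidueField O → O := Function.surjInv hsurj
  have hs : ∀ x, IsLocalRing.residue O (s x) = x := Function.surjInv_eq hsurj
  let a : ℕ → O := fun i => s (Infinite.natEmbedding (IsLocalRing.ResidueField O) i)
  have ha : Function.Injective fun i => IsLocalRing.residue O (a i) := by
    intro i j hij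
    simp only [a, hs] at hij
    exact (Infinite.natEmbedding _).injective hij
  refine ⟨a, avoid a ha, ?_⟩
  refine avoid (fun i => toNag O (a i)) ?_
  intro i j hij
  by_contra hne
  have h1 : IsUnit (a i - a j) := by
    by_contra h
    have h2 : IsLocalRing.residue O (a i - a j) = 0 :=
      (IsLocalRing.residue_eq_zero_iff _).2 h
    rw [map_sub, sub_eq_zero] at h2
    exact hne (ha h2)
  have h3 : IsUnit (toNag O (a i) - toNag O (a j)) := by
    rw [← map_sub]
    exact h1.map (toNag O)
  have h4 : IsLocalRing.residue (Nag O) (toNag O (a i) - toNag O (a j)) = 0 := by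
    rw [map_sub, sub_eq_zero]
    exact hij
  exact (IsLocalRing.residue_eq_zero_iff _).1 h4 h3

end

end Pool.Agent.H33.KI
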